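import Pool.Agent.NTS.StmtsE

/-!
Row NLN of the squad NTS: labelled nearness at a neighbouring point.
-/

set_option autoImplicit false

open Matrix Filter Topology

namespace Pool.Agent.NTS.H26

open Pool.Agent.PFS Pool.Agent.PFJ Pool.Agent.NTS

theorem comb {n K : ℕ} {C : Set (V n)} (h : PCone C) {w : Fin K → V n}
    (hw : ∀ j, w j ∈ closure C) {a b : Fin K → ℝ} (hab : ∀ j, a j ≤ b j) :
    (∑ j, b j • w j) - (∑ j, a j • w j) ∈ closure C := by
  rw [← Finset.sum_sub_distrib]
  refine h.cl_sum fun j _ => ?_
  rw [← sub_smul]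
  exact h.cl_smul (hw j) (sub_nonneg.2 (hab j))

theorem nln : NlnStmt := by
  intro n C hC K w w' u i e hw hw' he hN
  obtain ⟨c, hc, h1, h2, h3, h4⟩ := hN
  have h2pos : ∀ z : ℤ, (0 : ℝ) < 2 ^ z := fun z => zpow_pos (by norm_num) z
  rcases he with he | he
  · -- the coefficients `c`
    subst he
    have ha : ∀ j, (2 : ℝ) ^ (u j) ≤ 2 ^ (if j = i then u j + 1 else u j) := by
      intro j
      by_cases hj : j = i
      · rw [if_pos hj, zpow_add₀ (by norm_num : (2:ℝ) ≠ 0), zpow_one]
        have := h2pos (u j)
        linarith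
      · rw [if_neg hj]
    have hb : ∀ j, (2 : ℝ) ^ (if j = i then u j + 1 else u j) ≤ 2 * 2 ^ (u j) := by
      intro j
      by_cases hj : j = i
      · rw [if_pos hj, zpow_add₀ (by norm_num : (2:ℝ) ≠ 0), zpow_one]
        linarith
      · rw [if_neg hj]
        have := h2pos (u j)
        linarith
    refine ⟨c, hc, fun j => ?_, fun j => ?_, ?_, ?_⟩
    · have e1 := h1 j
      have e2 := ha j
      have e3 := hc j
      simp only at e1
      linarith
    · have e1 := h2 j
      have e2 := hb j
      simp only at e1
      linarith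
    · have e1 : pt w (fun j => if j = i then u j + 1 else u j) - pt w u ∈ closure C :=
        comb hC hw ha
      have e2 := hC.cl_add h3 e1
      have e3 : (∑ i, c i • w' i) - pt w (fun j => if j = i then u j + 1 else u j) +
          (pt w (fun j => if j = i then u j + 1 else u j) - pt w u) =
          (∑ i, c i • w' i) - pt w u := by abel
      rwa [e3] at e2
    · have e1 : (∑ j, (2 * 2 ^ (u j) : ℝ) • w j) -
          (∑ j, ((2 : ℝ) ^ (if j = i then u j + 1 else u j)) • w j) ∈ closure C :=
        comb hC hw hb
      have e2 : (∑ j, (2 * 2 ^ (u j) : ℝ) • w j) = (2 : ℝ) • pt w u := by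
        unfold pt
        rw [Finset.smul_sum]
        exact Finset.sum_congr rfl fun j _ => by rw [smul_smul]
      rw [e2] at e1
      have e3 := hC.cl_add h4 (hC.cl_smul e1 (t := 2) (by norm_num))
      have e4 : (2 : ℝ) • pt w (fun j => if j = i then u j + 1 else u j) - (∑ i, c i • w' i) +
          (2 : ℝ) • ((2 : ℝ) • pt w u -
            (∑ j, ((2 : ℝ) ^ (if j = i then u j + 1 else u j)) • w j)) =
          (4 : ℝ) • pt w u - (∑ i, c i • w' i) := by
        show (2 : ℝ) • pt w (fun j => if j = i then u j + 1 else u j) - (∑ i, c i • w' i) +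
          (2 : ℝ) • ((2 : ℝ) • pt w u - pt w (fun j => if j = i then u j + 1 else u j)) =
          (4 : ℝ) • pt w u - (∑ i, c i • w' i)
        module
      rwa [e4] at e3
  · -- the coefficients `2 c`
    subst he
    have ha : ∀ j, (2 : ℝ) ^ (if j = i then u j + -1 else u j) ≤ 2 ^ (u j) := by
      intro j
      by_cases hj : j = i
      · rw [if_pos hj]
        exact zpow_le_zpow_right₀ (by norm_num) (by omega)
      · rw [if_neg hj]
    have hb : ∀ j, (2 : ℝ) ^ (u j) ≤ 2 * 2 ^ (if j = i then u j + -1 else u j) := by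
      intro j
      by_cases hj : j = i
      · rw [if_pos hj, zpow_add₀ (by norm_num : (2:ℝ) ≠ 0)]
        have : (2 : ℝ) * (2 ^ (u j) * 2 ^ (-1 : ℤ)) = 2 ^ (u j) := by
          rw [_root_.zpow_neg_one]
          ring
        rw [this]
      · rw [if_neg hj]
        have := h2pos (u j)
        linarith
    refine ⟨fun j => 2 * c j, fun j => by have := hc j; positivity, fun j => ?_, fun j => ?_,
      ?_, ?_⟩
    · have e1 := h1 j
      have e2 := hb j
      have e3 := hc j
      simp only at e1
      simp only
      linarith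
    · have e1 := h2 j
      have e2 := ha j
      simp only at e1
      simp only
      linarith
    · have e1 : (∑ j, (2 * 2 ^ (if j = i then u j + -1 else u j) : ℝ) • w j) -
          (∑ j, ((2 : ℝ) ^ (u j)) • w j) ∈ closure C :=
        comb hC hw hb
      have e2 : (∑ j, (2 * 2 ^ (if j = i then u j + -1 else u j) : ℝ) • w j) =
          (2 : ℝ) • pt w (fun j => if j = i then u j + -1 else u j) := by
        unfold pt
        rw [Finset.smul_sum]
        exact Finset.sum_congr rfl fun j _ => by rw [smul_smul]
      rw [e2] at e1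
      have e3 := hC.cl_add (hC.cl_smul h3 (t := 2) (by norm_num)) e1
      have e4 : (∑ j, (2 * c j) • w' j) = (2 : ℝ) • ∑ j, c j • w' j := by
        rw [Finset.smul_sum]
        exact Finset.sum_congr rfl fun j _ => by rw [smul_smul]
      show (∑ j, (2 * c j) • w' j) - pt w u ∈ closure C
      rw [e4]
      have e5 : (2 : ℝ) • ((∑ i, c i • w' i) -
            pt w (fun j => if j = i then u j + -1 else u j)) +
          ((2 : ℝ) • pt w (fun j => if j = i then u j + -1 else u j) -
            ∑ j, ((2 : ℝ) ^ (u j)) • w j) =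
          (2 : ℝ) • (∑ j, c j • w' j) - pt w u := by
        show (2 : ℝ) • ((∑ i, c i • w' i) -
            pt w (fun j => if j = i then u j + -1 else u j)) +
          ((2 : ℝ) • pt w (fun j => if j = i then u j + -1 else u j) - pt w u) =
          (2 : ℝ) • (∑ j, c j • w' j) - pt w u
        module
      rwa [e5] at e3
    · have e1 : pt w u - pt w (fun j => if j = i then u j + -1 else u j) ∈ closure C :=
        comb hC hw ha
      have e2 := hC.cl_add (hC.cl_smul h4 (t := 2) (by norm_num))
        (hC.cl_smul e1 (t := 4) (by norm_num))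
      have e4 : (∑ j, (2 * c j) • w' j) = (2 : ℝ) • ∑ j, c j • w' j := by
        rw [Finset.smul_sum]
        exact Finset.sum_congr rfl fun j _ => by rw [smul_smul]
      show (4 : ℝ) • pt w u - (∑ j, (2 * c j) • w' j) ∈ closure C
      rw [e4]
      have e5 : (2 : ℝ) • ((2 : ℝ) • pt w (fun j => if j = i then u j + -1 else u j) -
            (∑ i, c i • w' i)) +
          (4 : ℝ) • (pt w u - pt w (fun j => if j = i then u j + -1 else u j)) =
          (4 : ℝ) • pt w u - (2 : ℝ) • (∑ j, c j • w' j) := by
        module
      rwa [e5] at e2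

end Pool.Agent.NTS.H26
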